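import Mathlib
import Pool.Agent.Helper8.MG.Parts

/-!
Swarm MG (MP_7596fa_lc), part EVM: the identities of the triangular matrices hold on the module.
-/

namespace Pool.Agent.Helper27.MG.EVM

open Finset Pool.Agent.Helper8.MG

universe u

section alg

variable {F R : Type*} [Field F] [CommRing R] [Algebra F R]

theorem tri_add {A B : Matrix (Fin 4) (Fin 4) R} (hA : Tri A) (hB : Tri B) : Tri (A + B) := by
  refine ⟨fun i j h => ?_, ?_⟩
  · rw [Matrix.add_apply, hA.low i j h, hB.low i j h, add_zero]
  · rw [Matrix.add_apply, Matrix.add_apply, hA.eq, hB.eq]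

theorem tri_mul {A B : Matrix (Fin 4) (Fin 4) R} (hA : Tri A) (hB : Tri B) : Tri (A * B) := by
  refine ⟨fun i j h => ?_, ?_⟩
  · rw [Matrix.mul_apply]
    refine Finset.sum_eq_zero fun k _ => ?_
    by_cases hk : i < k
    · rw [hA.low i k hk, zero_mul]
    · rw [hB.low k j (lt_of_le_of_lt (not_lt.1 hk) h), mul_zero]
  · rw [Matrix.mul_apply, Matrix.mul_apply, Fin.sum_univ_four, Fin.sum_univ_four,
      hA.low 0 1 (by decide), hA.low 0 2 (by decide), hA.low 0 3 (by decide),
      hB.low 0 3 (by decide), hB.low 1 3 (by decide), hB.low 2 3 (by decide), hA.eq, hB.eq]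
    ring

theorem tri_scalar (r : F) : Tri (algebraMap F (Matrix (Fin 4) (Fin 4) R) r) := by
  refine ⟨fun i j h => ?_, ?_⟩
  · rw [Matrix.algebraMap_matrix_apply, if_neg]
    rintro rfl
    exact absurd h (lt_irrefl _)
  · simp [Matrix.algebraMap_matrix_apply]

theorem lift_tri {A : Fin 3 → Matrix (Fin 4) (Fin 4) R} (hA : ∀ i, Tri (A i))
    (p : FreeAlgebra F (Fin 3)) : Tri (FreeAlgebra.lift F A p) := by
  induction p using FreeAlgebra.induction with
  | grade0 r => rw [AlgHom.commutes]; exact tri_scalar r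
  | grade1 i => rw [FreeAlgebra.lift_ι_apply]; exact hA i
  | mul a b ha hb => rw [map_mul]; exact tri_mul ha hb
  | add a b ha hb => rw [map_add]; exact tri_add ha hb

end alg

variable {F : Type u} [Field F]

variable (m i0 : ℕ) (j0 : Col)

/-- level of a basis element -/
def idx : Bs → Fin 4
  | .fin _ _ => 0
  | .c _ _ _ _ => 1
  | .b _ _ _ _ _ _ => 2
  | .t _ _ _ _ _ _ => 3

/-- exponent vector -/
noncomputable def ex (n n' p q : ℕ) : Fin 4 →₀ ℕ :=
  Finsupp.single 0 n + Finsupp.single 1 n' + Finsupp.single 2 p + Finsupp.single 3 q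

theorem ex_inj {n n' p q a a' b c : ℕ} (h : ex n n' p q = ex a a' b c) :
    n = a ∧ n' = a' ∧ p = b ∧ q = c := by
  unfold ex at h
  refine ⟨?_, ?_, ?_, ?_⟩
  · simpa using DFunLike.congr_fun h 0
  · simpa using DFunLike.congr_fun h 1
  · simpa using DFunLike.congr_fun h 2
  · simpa using DFunLike.congr_fun h 3

variable (F) in
/-- a monomial -/
noncomputable def mon (n n' p q : ℕ) : MvPolynomial (Fin 4) F :=
  MvPolynomial.X 0 ^ n * MvPolynomial.X 1 ^ n' * MvPolynomial.X 2 ^ p * MvPolynomial.X 3 ^ q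

theorem mon_eq (n n' p q : ℕ) : mon F n n' p q = MvPolynomial.monomial (ex n n' p q) 1 := by
  unfold mon ex
  simp only [MvPolynomial.X_pow_eq_monomial, MvPolynomial.monomial_mul, mul_one]

theorem mon_coeff (n n' p q a a' b c : ℕ) :
    MvPolynomial.coeff (ex a a' b c) (mon F n n' p q) =
      if n = a ∧ n' = a' ∧ p = b ∧ q = c then 1 else 0 := by
  rw [mon_eq, MvPolynomial.coeff_monomial]
  by_cases h : n = a ∧ n' = a' ∧ p = b ∧ q = c
  · obtain ⟨rfl, rfl, rfl, rfl⟩ := h
    simp
  · rw [if_neg h, if_neg fun h' => h (ex_inj h')]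

/-- the basis elements which are seen by the evaluation -/
def mt : Bs → Prop
  | .fin _ _ => True
  | .c j _ _ _ => j = j0
  | .b i j _ _ _ _ => i = i0 ∧ j = j0
  | .t i j _ _ _ _ => i = i0 ∧ j = j0

variable (F) in
/-- monomial of a basis element -/
noncomputable def mo : Bs → MvPolynomial (Fin 4) F
  | .fin p q => mon F 0 0 p q
  | .c _ n' p q => mon F 0 n' p q
  | .b _ _ n n' p q => mon F n n' p q
  | .t _ _ n n' p q => mon F n n' p q

open Classical in
variable (F) in
/-- coefficient of a basis element -/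
noncomputable def coef (β : Bs) : MvPolynomial (Fin 4) F := if mt i0 j0 β then mo F β else 0

theorem coef_pos {i0 : ℕ} {j0 : Col} {β : Bs} (h : mt i0 j0 β) : coef F i0 j0 β = mo F β := by
  unfold coef; exact if_pos h

theorem coef_neg {i0 : ℕ} {j0 : Col} {β : Bs} (h : ¬ mt i0 j0 β) : coef F i0 j0 β = 0 := by
  unfold coef; exact if_neg h

theorem coef_fin (p q : ℕ) : coef F i0 j0 (.fin p q) = mon F 0 0 p q := coef_pos trivial

theorem coef_c (n' p q : ℕ) : coef F i0 j0 (.c j0 n' p q) = mon F 0 n' p q :=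
  coef_pos (show mt i0 j0 (.c j0 n' p q) from rfl)

theorem coef_c' {j : Col} (h : j ≠ j0) (n' p q : ℕ) : coef F i0 j0 (.c j n' p q) = 0 :=
  coef_neg (show ¬ mt i0 j0 (.c j n' p q) from h)

theorem coef_b (n n' p q : ℕ) : coef F i0 j0 (.b i0 j0 n n' p q) = mon F n n' p q :=
  coef_pos (show mt i0 j0 (.b i0 j0 n n' p q) from ⟨rfl, rfl⟩)

theorem coef_b' {i : ℕ} {j : Col} (h : ¬ (i = i0 ∧ j = j0)) (n n' p q : ℕ) :
    coef F i0 j0 (.b i j n n' p q) = 0 :=
  coef_neg (show ¬ mt i0 j0 (.b i j n n' p q) from h)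

theorem coef_t (n n' p q : ℕ) : coef F i0 j0 (.t i0 j0 n n' p q) = mon F n n' p q :=
  coef_pos (show mt i0 j0 (.t i0 j0 n n' p q) from ⟨rfl, rfl⟩)

theorem coef_t' {i : ℕ} {j : Col} (h : ¬ (i = i0 ∧ j = j0)) (n n' p q : ℕ) :
    coef F i0 j0 (.t i j n n' p q) = 0 :=
  coef_neg (show ¬ mt i0 j0 (.t i j n n' p q) from h)

/-- evaluation of a basis element -/
noncomputable def ev4 (β : Bs) : Fin 4 → MvPolynomial (Fin 4) F :=
  Pi.single (idx β) (coef F i0 j0 β)

/-- evaluation map -/
noncomputable def EV : (Bs →₀ F) →ₗ[F] (Fin 4 → MvPolynomial (Fin 4) F) :=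
  Finsupp.linearCombination F (ev4 i0 j0)

theorem EV_bv (β : Bs) : EV (F := F) i0 j0 (bv F β) = ev4 i0 j0 β := by
  simp [EV, bv]

open Classical in
variable (F) in
/-- the generator `x` as a matrix, column by column -/
noncomputable def Xcol (k : Fin 4) : Fin 4 → MvPolynomial (Fin 4) F :=
  if k = 0 then Pi.single (0 : Fin 4) (MvPolynomial.X 2 : MvPolynomial (Fin 4) F)
    + (if j0 ∈ cols m then Pi.single (1 : Fin 4) 1 else 0)
  else if k = 1 then Pi.single (1 : Fin 4) (MvPolynomial.X 1 : MvPolynomial (Fin 4) F)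
    + (if i0 < 2 * m then Pi.single (2 : Fin 4) 1 else 0)
  else if k = 2 then Pi.single (2 : Fin 4) (MvPolynomial.X 0 : MvPolynomial (Fin 4) F)
    + Pi.single (3 : Fin 4) 1
  else Pi.single (3 : Fin 4) (MvPolynomial.X 2 : MvPolynomial (Fin 4) F)

variable (F) in
/-- the generator `x` as a matrix -/
noncomputable def Xm : Matrix (Fin 4) (Fin 4) (MvPolynomial (Fin 4) F) :=
  Matrix.of fun i k => Xcol F m i0 j0 k i

variable (F) in
/-- the generator `y` as a matrix -/
noncomputable def Ym : Matrix (Fin 4) (Fin 4) (MvPolynomial (Fin 4) F) :=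
  Matrix.diagonal fun k => if k = 0 ∨ k = 3 then MvPolynomial.X 3 else 0

/-- diagonal entries of the generator `z` -/
def zd (k : Fin 4) : ℕ :=
  if k = 1 then eigV m (.c j0)
  else if k = 2 then eigV m (.b i0)
  else eigV m .al

variable (F) in
/-- the generator `z` as a matrix -/
noncomputable def Zm : Matrix (Fin 4) (Fin 4) (MvPolynomial (Fin 4) F) :=
  Matrix.diagonal fun k => (zd m i0 j0 k : MvPolynomial (Fin 4) F)

theorem Xm_tri : Tri (Xm F m i0 j0) := by
  refine ⟨fun i j h => ?_, ?_⟩
  · simp only [Xm, Matrix.of_apply, Xcol]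
    fin_cases i <;> fin_cases j <;> simp at h ⊢ <;> split_ifs <;> simp
  · simp only [Xm, Matrix.of_apply, Xcol]
    split_ifs <;> simp_all

theorem Ym_tri : Tri (Ym F) := by
  refine ⟨fun i j h => ?_, ?_⟩
  · simp only [Ym]
    exact Matrix.diagonal_apply_ne _ h.ne
  · simp [Ym]

theorem Zm_tri : Tri (Zm F m i0 j0) := by
  refine ⟨fun i j h => ?_, ?_⟩
  · simp only [Zm]
    exact Matrix.diagonal_apply_ne _ h.ne
  · simp [Zm, zd]

theorem Xm_single (k : Fin 4) (x : MvPolynomial (Fin 4) F) :
    (Xm F m i0 j0).mulVec (Pi.single k x) = x • Xcol F m i0 j0 k := by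
  ext1 i
  simp only [Matrix.mulVec, dotProduct_single, Xm, Matrix.of_apply, Pi.smul_apply, smul_eq_mul]
  exact mul_comm _ _

theorem Zm_single (k : Fin 4) (x : MvPolynomial (Fin 4) F) :
    (Zm F m i0 j0).mulVec (Pi.single k x)
      = (zd m i0 j0 k) • (Pi.single k x : Fin 4 → MvPolynomial (Fin 4) F) := by
  ext1 i
  simp only [Zm, Matrix.mulVec_diagonal, Pi.smul_apply, nsmul_eq_mul]
  by_cases h : i = k
  · subst h; rfl
  · simp [h]

theorem Ym_single (k : Fin 4) (x : MvPolynomial (Fin 4) F) :
    (Ym F).mulVec (Pi.single k x)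
      = Pi.single k ((if k = 0 ∨ k = 3 then MvPolynomial.X 3 else 0) * x) := by
  ext1 i
  simp only [Ym, Matrix.mulVec_diagonal]
  by_cases h : i = k
  · subst h; simp
  · simp [h]

theorem smul_single (k : Fin 4) (x y : MvPolynomial (Fin 4) F) :
    x • (Pi.single k y : Fin 4 → MvPolynomial (Fin 4) F) = Pi.single k (x * y) := by
  rw [← Pi.single_smul, smul_eq_mul]

theorem Xop_bv (β : Bs) : Xop F m (bv F β) = xb F m β := by simp [Xop, bv]
theorem Yop_bv (β : Bs) : Yop F (bv F β) = yb F β := by simp [Yop, bv]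
theorem Zop_bv (β : Bs) : Zop F m (bv F β) = (eig m β : F) • bv F β := by simp [Zop, bv]

theorem mon_X0 (n n' p q : ℕ) : mon F n n' p q * MvPolynomial.X 0 = mon F (n + 1) n' p q := by
  unfold mon; ring
theorem mon_X1 (n n' p q : ℕ) : mon F n n' p q * MvPolynomial.X 1 = mon F n (n' + 1) p q := by
  unfold mon; ring
theorem mon_X2 (n n' p q : ℕ) : mon F n n' p q * MvPolynomial.X 2 = mon F n n' (p + 1) q := by
  unfold mon; ring
theorem mon_X3 (n n' p q : ℕ) : MvPolynomial.X 3 * mon F n n' p q = mon F n n' p (q + 1) := by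
  unfold mon; ring

theorem EV_X (y : Bs →₀ F) :
    EV i0 j0 (Xop F m y) = (Xm F m i0 j0).mulVec (EV i0 j0 y) := by
  induction y using Finsupp.induction_linear with
  | zero => simp
  | add a b ha hb => rw [map_add, map_add, map_add, ha, hb, Matrix.mulVec_add]
  | single β c =>
    have hs : (Finsupp.single β c : Bs →₀ F) = c • bv F β := by simp [bv]
    rw [hs, map_smul, map_smul, map_smul, Matrix.mulVec_smul]
    congr 1
    rw [Xop_bv, EV_bv]
    unfold ev4
    rw [Xm_single]
    cases β with
    | fin p q =>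
      simp only [xb, map_add, map_sum, EV_bv, ev4, idx, coef_fin, Xcol, if_true, smul_add,
        smul_single, mon_X2]
      congr 1
      by_cases hj : j0 ∈ cols m
      · rw [if_pos hj, Finset.sum_eq_single j0]
        · rw [coef_c, smul_single, mul_one]
        · intro j _ hne
          rw [coef_c' i0 j0 hne, Pi.single_zero]
        · intro h; exact absurd hj h
      · rw [if_neg hj, smul_zero]
        refine Finset.sum_eq_zero fun j hjm => ?_
        rw [coef_c' i0 j0, Pi.single_zero]
        rintro rfl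
        exact hj hjm
    | c j n' p q =>
      simp only [xb, map_add, map_sum, EV_bv, ev4, idx, Xcol]
      by_cases hj : j = j0
      · subst hj
        simp only [coef_c, if_true, one_ne_zero, if_false, smul_add, smul_single, mon_X1,
          Fin.isValue]
        congr 1
        by_cases hi : i0 < 2 * m
        · rw [if_pos hi, Finset.sum_eq_single i0]
          · rw [coef_b, smul_single, mul_one]
          · intro i _ hne
            rw [coef_b' i0 j fun hh => hne hh.1, Pi.single_zero]
          · intro h; exact absurd (Finset.mem_range.2 hi) h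
        · rw [if_neg hi, smul_zero]
          refine Finset.sum_eq_zero fun i him => ?_
          rw [coef_b' i0 j, Pi.single_zero]
          rintro ⟨rfl, -⟩
          exact hi (Finset.mem_range.1 him)
      · rw [coef_c' i0 j0 hj, coef_c' i0 j0 hj, zero_smul, Pi.single_zero, zero_add]
        refine Finset.sum_eq_zero fun i _ => ?_
        rw [coef_b' i0 j0 fun hh => hj hh.2, Pi.single_zero]
    | b i j n n' p q =>
      simp only [xb, map_add, EV_bv, ev4, idx, Xcol]
      by_cases hj : i = i0 ∧ j = j0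
      · obtain ⟨rfl, rfl⟩ := hj
        simp only [coef_b, coef_t, smul_add, smul_single, mon_X0, mul_one, Fin.isValue,
          Fin.reduceEq, if_false, if_true]
      · rw [coef_b' i0 j0 hj, coef_b' i0 j0 hj, coef_t' i0 j0 hj, zero_smul, Pi.single_zero,
          Pi.single_zero, zero_add]
    | t i j n n' p q =>
      simp only [xb, EV_bv, ev4, idx, Xcol]
      by_cases hj : i = i0 ∧ j = j0
      · obtain ⟨rfl, rfl⟩ := hj
        simp only [coef_t, smul_single, mon_X2, Fin.isValue, Fin.reduceEq, if_false]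
      · rw [coef_t' i0 j0 hj, coef_t' i0 j0 hj, zero_smul, Pi.single_zero]

theorem EV_Y (y : Bs →₀ F) :
    EV i0 j0 (Yop F y) = (Ym F).mulVec (EV i0 j0 y) := by
  induction y using Finsupp.induction_linear with
  | zero => simp
  | add a b ha hb => rw [map_add, map_add, map_add, ha, hb, Matrix.mulVec_add]
  | single β c =>
    have hs : (Finsupp.single β c : Bs →₀ F) = c • bv F β := by simp [bv]
    rw [hs, map_smul, map_smul, map_smul, Matrix.mulVec_smul]
    congr 1
    rw [Yop_bv, EV_bv]
    unfold ev4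
    rw [Ym_single]
    cases β with
    | fin p q =>
      simp only [yb, EV_bv, ev4, idx, coef_fin, if_true, true_or, mon_X3]
    | c j n' p q => simp [yb, idx]
    | b i j n n' p q => simp [yb, idx]
    | t i j n n' p q =>
      simp only [yb, EV_bv, ev4, idx]
      by_cases hj : i = i0 ∧ j = j0
      · obtain ⟨rfl, rfl⟩ := hj
        simp only [coef_t, or_true, if_true, mon_X3]
      · rw [coef_t' i0 j0 hj, coef_t' i0 j0 hj, mul_zero]

theorem EV_Z (y : Bs →₀ F) :
    EV i0 j0 (Zop F m y) = (Zm F m i0 j0).mulVec (EV i0 j0 y) := by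
  induction y using Finsupp.induction_linear with
  | zero => simp
  | add a b ha hb => rw [map_add, map_add, map_add, ha, hb, Matrix.mulVec_add]
  | single β c =>
    have hs : (Finsupp.single β c : Bs →₀ F) = c • bv F β := by simp [bv]
    rw [hs, map_smul, map_smul, map_smul, Matrix.mulVec_smul]
    congr 1
    rw [Zop_bv, map_smul, EV_bv]
    unfold ev4
    rw [Zm_single, Nat.cast_smul_eq_nsmul]
    cases β with
    | fin p q => rfl
    | c j n' p q =>
      by_cases hj : j = j0
      · subst hj; rfl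
      · simp [coef_c' i0 j0 hj]
    | b i j n n' p q =>
      by_cases hj : i = i0 ∧ j = j0
      · obtain ⟨rfl, rfl⟩ := hj; rfl
      · simp [coef_b' i0 j0 hj]
    | t i j n n' p q =>
      by_cases hj : i = i0 ∧ j = j0
      · obtain ⟨rfl, rfl⟩ := hj; rfl
      · simp [coef_t' i0 j0 hj]

/-- the three matrices -/
noncomputable def mats : Fin 3 → Matrix (Fin 4) (Fin 4) (MvPolynomial (Fin 4) F) :=
  ![Zm F m i0 j0, Xm F m i0 j0, Ym F]

theorem EV_lift (p : FreeAlgebra F (Fin 3)) (y : Bs →₀ F) :
    EV i0 j0 (FreeAlgebra.lift F (gens F m) p y)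
      = (FreeAlgebra.lift F (mats m i0 j0) p).mulVec (EV i0 j0 y) := by
  induction p using FreeAlgebra.induction generalizing y with
  | grade0 r =>
    rw [AlgHom.commutes, AlgHom.commutes, Module.algebraMap_end_apply, map_smul,
      Algebra.algebraMap_eq_smul_one, Matrix.smul_mulVec, Matrix.one_mulVec]
  | grade1 i =>
    rw [FreeAlgebra.lift_ι_apply, FreeAlgebra.lift_ι_apply]
    fin_cases i
    · exact EV_Z ..
    · exact EV_X ..
    · exact EV_Y ..
  | mul a b ha hb =>
    rw [map_mul, map_mul, Module.End.mul_apply, ha, hb, Matrix.mulVec_mulVec]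
  | add a b ha hb =>
    rw [map_add, map_add, LinearMap.add_apply, map_add, ha, hb, Matrix.add_mulVec]

/-- exponent vector of a basis element -/
noncomputable def exb : Bs → (Fin 4 →₀ ℕ)
  | .fin p q => ex 0 0 p q
  | .c _ n' p q => ex 0 n' p q
  | .b _ _ n n' p q => ex n n' p q
  | .t _ _ n n' p q => ex n n' p q

theorem EV_coeff (β : Bs) (hβ : mt i0 j0 β) (y : Bs →₀ F) :
    MvPolynomial.coeff (exb β) (EV i0 j0 y (idx β)) = y β := by
  classical
  induction y using Finsupp.induction_linear with
  | zero => simp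
  | add a b ha hb => simp [ha, hb]
  | single β' c =>
    have hs : (Finsupp.single β' c : Bs →₀ F) = c • bv F β' := by simp [bv]
    rw [hs, map_smul, EV_bv, Pi.smul_apply, MvPolynomial.coeff_smul, Finsupp.smul_apply]
    congr 1
    unfold ev4 bv
    by_cases h : β' = β
    · subst h
      rw [Pi.single_eq_same, Finsupp.single_eq_same]
      unfold coef
      rw [if_pos hβ]
      cases β' <;> simp [mo, exb, mon_coeff]
    · rw [Finsupp.single_eq_of_ne (Ne.symm h)]
      by_cases hm : mt i0 j0 β'
      · unfold coef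
        rw [if_pos hm]
        cases β <;> cases β' <;> simp only [idx, mt] at hβ hm ⊢ <;>
          first
          | (rw [Pi.single_eq_of_ne (by decide)]; simp)
          | (rw [Pi.single_eq_same]
             simp only [mo, exb, mon_coeff]
             rw [if_neg]
             intro hh
             apply h
             simp_all)
      · unfold coef
        rw [if_neg hm]
        simp

theorem EV_inj (y : Bs →₀ F) (h : ∀ i j, EV i j y = 0) : y = 0 := by
  ext β
  have key : ∀ i j, mt i j β → y β = 0 := by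
    intro i j hm
    rw [← EV_coeff i j β hm y, h i j]
    simp
  cases β with
  | fin p q => exact key 0 (.k 0) trivial
  | c j n' p q => exact key 0 j rfl
  | b i j n n' p q => exact key i j ⟨rfl, rfl⟩
  | t i j n n' p q => exact key i j ⟨rfl, rfl⟩

/-- Part EVM. -/
theorem t_EVM : S_EVM.{u} := by
  intro hext F _ _ m r hr p y
  apply EV_inj
  intro i j
  rw [EV_lift]
  have h2 : FreeAlgebra.lift F (mats (F := F) m i j) (FreeAlgebra.lift F p r) = 0 := by
    have h3 : FreeAlgebra.lift F (mats (F := F) m i j) (FreeAlgebra.lift F p r) =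
        FreeAlgebra.lift F (fun k => FreeAlgebra.lift F (mats (F := F) m i j) (p k)) r := by
      have h4 : (FreeAlgebra.lift F (mats (F := F) m i j)).comp (FreeAlgebra.lift F p) =
          FreeAlgebra.lift F (fun k => FreeAlgebra.lift F (mats (F := F) m i j) (p k)) := by
        ext k
        simp
      exact DFunLike.congr_fun h4 r
    rw [h3]
    refine hext F r hr (MvPolynomial (Fin 4) F) _ fun k => ?_
    refine lift_tri (fun l => ?_) _
    fin_cases l
    · exact Zm_tri m i j
    · exact Xm_tri m i j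
    · exact Ym_tri
  rw [h2, Matrix.zero_mulVec]

end Pool.Agent.Helper27.MG.EVM
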