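import Mathlib
import Pool.Agent.Helper8.MG.Parts

/-!
Swarm MG (MP_7596fa_lc), parts MID and NZS.
-/

namespace Pool.Agent.Helper27.MG

open Pool.Agent.Helper8.MG

universe u

theorem lift_prod {F : Type u} [Field F] {B : Type*} [Ring B] [Algebra F B] (A : ℕ → B) {n : ℕ}
    (f : Fin n → ℕ) : FreeAlgebra.lift F A (List.ofFn fun i => FreeAlgebra.ι F (f i)).prod =
      (List.ofFn fun i => A (f i)).prod := by
  rw [map_list_prod, List.map_ofFn]
  congr 2
  funext i
  simp

theorem lift_standard {F : Type u} [Field F] {B : Type*} [Ring B] [Algebra F B] (A : ℕ → B)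
    (n : ℕ) : FreeAlgebra.lift F A (standard F n) =
      ∑ σ : Equiv.Perm (Fin n), Equiv.Perm.sign σ •
        (List.ofFn fun i => A ((σ i : Fin n) : ℕ)).prod := by
  unfold standard
  rw [map_sum]
  refine Finset.sum_congr rfl fun σ _ => ?_
  rcases Int.units_eq_one_or (Equiv.Perm.sign σ) with h | h
  · rw [h, one_smul, one_smul]
    exact lift_prod A fun i => ((σ i : Fin n) : ℕ)
  · rw [h, Units.neg_smul, Units.neg_smul, one_smul, one_smul, map_neg]
    exact congrArg _ (lift_prod A fun i => ((σ i : Fin n) : ℕ))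

/-- Part MID. -/
theorem t_MID : S_MID.{u} := by
  classical
  intro F _ d A
  rw [lift_standard]
  let B := Matrix (Fin d) (Fin d) F
  let Φ : MultilinearMap F (fun _ : Fin (d * d + 1) => B) B :=
    MultilinearMap.mkPiAlgebraFin F (d * d + 1) B
  have h2 : ∑ σ : Equiv.Perm (Fin (d * d + 1)), Equiv.Perm.sign σ •
        (List.ofFn fun i => A ((σ i : Fin (d * d + 1)) : ℕ)).prod =
      (MultilinearMap.alternatization Φ) (fun k => A (k : ℕ)) := by
    rw [MultilinearMap.alternatization_apply]
    refine Finset.sum_congr rfl fun σ _ => ?_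
    rw [MultilinearMap.domDomCongr_apply]
    simp [Φ, MultilinearMap.mkPiAlgebraFin_apply]
  rw [h2]
  apply AlternatingMap.map_linearDependent
  intro hli
  have h3 := hli.fintype_card_le_finrank
  simp [B, Module.finrank_matrix] at h3

/-- Part NZS. -/
theorem t_NZS : S_NZS.{u} := by
  classical
  intro F _ n h0
  have h1 := congrArg (FreeAlgebra.lift F
    (fun i : ℕ => MonoidAlgebra.of F (FreeMonoid ℕ) (FreeMonoid.of i))) h0
  rw [lift_standard, map_zero] at h1
  have h2 : ∀ σ : Equiv.Perm (Fin n),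
      (List.ofFn fun i => MonoidAlgebra.of F (FreeMonoid ℕ)
        (FreeMonoid.of ((σ i : Fin n) : ℕ))).prod =
      MonoidAlgebra.of F (FreeMonoid ℕ)
        (FreeMonoid.ofList (List.ofFn fun i => ((σ i : Fin n) : ℕ))) := by
    intro σ
    have e1 : (List.ofFn fun i => MonoidAlgebra.of F (FreeMonoid ℕ)
        (FreeMonoid.of ((σ i : Fin n) : ℕ))) =
        (List.ofFn fun i => FreeMonoid.of ((σ i : Fin n) : ℕ)).map
          (MonoidAlgebra.of F (FreeMonoid ℕ)) := by
      rw [List.map_ofFn]
      rfl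
    rw [e1, ← map_list_prod]
    congr 1
    have e2 : (List.ofFn fun i => FreeMonoid.of ((σ i : Fin n) : ℕ)) =
        (List.ofFn fun i => ((σ i : Fin n) : ℕ)).map FreeMonoid.of := by
      rw [List.map_ofFn]
      rfl
    rw [e2]
    generalize (List.ofFn fun i => ((σ i : Fin n) : ℕ)) = l
    induction l with
    | nil => rfl
    | cons a l ih => rw [List.map_cons, List.prod_cons, ih]; rfl
  rw [Finset.sum_congr rfl fun σ _ => by rw [h2 σ]] at h1
  set w : FreeMonoid ℕ := FreeMonoid.ofList (List.ofFn fun i : Fin n => (i : ℕ)) with hw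
  have h3 := congrArg (fun f : MonoidAlgebra F (FreeMonoid ℕ) => f.coeff w) h1
  simp only [MonoidAlgebra.coeff_sum, MonoidAlgebra.coeff_zero, Finsupp.coe_finsetSum,
    Finset.sum_apply, Finsupp.coe_zero, Pi.zero_apply] at h3
  have h4 : ∀ σ : Equiv.Perm (Fin n), σ ≠ 1 →
      ((Equiv.Perm.sign σ • MonoidAlgebra.of F (FreeMonoid ℕ)
        (FreeMonoid.ofList (List.ofFn fun i => ((σ i : Fin n) : ℕ)))).coeff) w = 0 := by
    intro σ hσ
    have hne : FreeMonoid.ofList (List.ofFn fun i => ((σ i : Fin n) : ℕ)) ≠ w := by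
      intro h
      apply hσ
      have h5 : (List.ofFn fun i => ((σ i : Fin n) : ℕ)) = List.ofFn fun i : Fin n => (i : ℕ) :=
        FreeMonoid.ofList.injective h
      have h6 := List.ofFn_injective h5
      ext i
      have := congrFun h6 i
      simpa using this
    have h7 : (MonoidAlgebra.of F (FreeMonoid ℕ)
        (FreeMonoid.ofList (List.ofFn fun i => ((σ i : Fin n) : ℕ)))).coeff w = 0 := by
      rw [MonoidAlgebra.of_apply, MonoidAlgebra.coeff_single, Finsupp.single_eq_of_ne hne.symm]
    rcases Int.units_eq_one_or (Equiv.Perm.sign σ) with h | h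
    · rw [h, one_smul]; exact h7
    · rw [h, Units.neg_smul, one_smul, MonoidAlgebra.coeff_neg, Finsupp.neg_apply, h7, neg_zero]
  rw [Finset.sum_eq_single (1 : Equiv.Perm (Fin n)) (fun σ _ hσ => h4 σ hσ)
    (fun h => absurd (Finset.mem_univ _) h)] at h3
  rw [Equiv.Perm.sign_one, one_smul, MonoidAlgebra.of_apply, MonoidAlgebra.coeff_single] at h3
  simp only [Equiv.Perm.coe_one, id_eq] at h3
  rw [← hw, Finsupp.single_eq_same] at h3
  exact one_ne_zero h3

end Pool.Agent.Helper27.MG
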